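import Pool.Agent.TWC.Loc
import Pool.Agent.TWB.Uni

/-!
# TMS / Lau: the two extreme coefficients of products of Laurent polynomials

`Le τ d p`, `Tp τ d a b p`: see `TWC/Loc.lean`.
-/

set_option autoImplicit false

namespace Pool.TMS

open LaurentPolynomial Pool.Agent.ARB Pool.Agent.Helper2 Pool.ALT Pool.TWC

theorem cf_T (c m : ℤ) (p : LP) : (T c * p : LP).coeff m = p.coeff (m - c) := by
  have h : (T c : LP) = AddMonoidAlgebra.single c 1 := rfl
  rw [h, AddMonoidAlgebra.coeff_single_mul_eq_mul_coeff (m - c) (fun m' _ => by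
    constructor <;> intro h <;> omega), one_mul]

theorem cf_loop (m : ℤ) (p : LP) :
    (loopVal * p : LP).coeff m = -(p.coeff (m - 2) + p.coeff (m + 2)) := by
  have h : (loopVal * p : LP) + (T 2 * p + T (-2) * p) = 0 := by
    rw [loopVal]
    ring
  have h2 := congrArg (fun q : LP => q.coeff m) h
  rw [AddMonoidAlgebra.coeff_add, AddMonoidAlgebra.coeff_add, Finsupp.add_apply,
    Finsupp.add_apply, cf_T, cf_T, sub_neg_eq_add] at h2
  have h3 : (0 : LP).coeff m = 0 := rfl
  rw [h3] at h2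
  linarith

theorem cf_loop' {τ : ℤ} (hτ : τ = 1 ∨ τ = -1) (j : ℤ) (p : LP) :
    (loopVal * p : LP).coeff (τ * j) = -(p.coeff (τ * (j - 2)) + p.coeff (τ * (j + 2))) := by
  rw [cf_loop]
  rcases hτ with rfl | rfl
  · simp only [one_mul]
  · have e1 : (-1 : ℤ) * (j - 2) = -1 * j + 2 := by ring
    have e2 : (-1 : ℤ) * (j + 2) = -1 * j - 2 := by ring
    rw [e1, e2, add_comm]

theorem cf_T' {τ : ℤ} (c j : ℤ) (p : LP) :
    (T (τ * c) * p : LP).coeff (τ * j) = p.coeff (τ * (j - c)) := by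
  rw [cf_T]
  congr 1
  ring

theorem le_T {τ d : ℤ} (c : ℤ) {p : LP} (h : Le τ d p) :
    Le τ (d + c) (T (τ * c) * p) := by
  intro j hj
  rw [cf_T']
  exact h _ (by omega)

theorem tp_T {τ d a b : ℤ} (c : ℤ) {p : LP} (h : Tp τ d a b p) :
    Tp τ (d + c) a b (T (τ * c) * p) := by
  refine ⟨le_T c h.le, ?_, fun j h1 h2 => ?_, ?_⟩
  · rw [cf_T', add_sub_cancel_right]
    exact h.top
  · rw [cf_T']
    exact h.gap _ (by omega) (by omega)
  · rw [cf_T']
    have e : d + c - 4 - c = d - 4 := by ring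
    rw [e]
    exact h.next

theorem le_loop {τ d : ℤ} (hτ : τ = 1 ∨ τ = -1) {p : LP} (h : Le τ d p) :
    Le τ (d + 2) (loopVal * p) := by
  intro j hj
  rw [cf_loop' hτ, h _ (by omega), h _ (by omega)]
  simp

theorem tp_loop {τ d a b : ℤ} (hτ : τ = 1 ∨ τ = -1) {p : LP} (h : Tp τ d a b p) :
    Tp τ (d + 2) (-a) (-(a + b)) (loopVal * p) := by
  refine ⟨le_loop hτ h.le, ?_, fun j h1 h2 => ?_, ?_⟩
  · rw [cf_loop' hτ, add_sub_cancel_right, h.top, h.le _ (by omega), add_zero]
  · rw [cf_loop' hτ, h.gap _ (by omega) (by omega), h.le _ (by omega)]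
    simp
  · rw [cf_loop' hτ]
    have e1 : d + 2 - 4 - 2 = d - 4 := by ring
    have e2 : d + 2 - 4 + 2 = d := by ring
    rw [e1, e2, h.next, h.top, add_comm]

theorem le_pow {τ d : ℤ} (hτ : τ = 1 ∨ τ = -1) {p : LP} (h : Le τ d p) (l : ℕ) :
    Le τ (d + 2 * l) (loopVal ^ l * p) := by
  induction l with
  | zero => simpa using h
  | succ l ih =>
    have e : (loopVal ^ (l + 1) * p : LP) = loopVal * (loopVal ^ l * p) := by ring
    have e2 : d + 2 * ((l + 1 : ℕ) : ℤ) = (d + 2 * (l : ℤ)) + 2 := by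
      push_cast
      ring
    rw [e, e2]
    exact le_loop hτ ih

theorem tp_pow {τ d a b : ℤ} (hτ : τ = 1 ∨ τ = -1) {p : LP} (h : Tp τ d a b p)
    (l : ℕ) : Tp τ (d + 2 * l) ((-1) ^ l * a) ((-1) ^ l * (l * a + b)) (loopVal ^ l * p) := by
  induction l with
  | zero => simpa using h
  | succ l ih =>
    have e : (loopVal ^ (l + 1) * p : LP) = loopVal * (loopVal ^ l * p) := by ring
    have e2 : d + 2 * ((l + 1 : ℕ) : ℤ) = (d + 2 * (l : ℤ)) + 2 := by
      push_cast
      ring
    have e3 : (-1 : ℤ) ^ (l + 1) * a = -((-1) ^ l * a) := by ring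
    have e4 : (-1 : ℤ) ^ (l + 1) * (((l + 1 : ℕ) : ℤ) * a + b) =
        -((-1) ^ l * a + (-1) ^ l * (l * a + b)) := by
      push_cast
      ring
    rw [e, e2, e3, e4]
    exact tp_loop hτ ih

theorem top_pow {τ d : ℤ} (hτ : τ = 1 ∨ τ = -1) {p : LP} (h : Le τ d p) (l : ℕ) :
    (loopVal ^ l * p : LP).coeff (τ * (d + 2 * l)) = (-1) ^ l * p.coeff (τ * d) := by
  induction l with
  | zero => simp
  | succ l ih =>
    have e : (loopVal ^ (l + 1) * p : LP) = loopVal * (loopVal ^ l * p) := by ring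
    have e2 : d + 2 * ((l + 1 : ℕ) : ℤ) = (d + 2 * (l : ℤ)) + 2 := by
      push_cast
      ring
    rw [e, cf_loop' hτ, le_pow hτ h l (d + 2 * ((l + 1 : ℕ) : ℤ) + 2) (by rw [e2]; omega)]
    have e3 : d + 2 * ((l + 1 : ℕ) : ℤ) - 2 = d + 2 * (l : ℤ) := by
      push_cast
      ring
    rw [e3, ih, add_zero, pow_succ]
    ring

/-- a factor `loopVal` can be cancelled in a degree bound -/
theorem le_of_loop {τ d : ℤ} (hτ : τ = 1 ∨ τ = -1) {p : LP} (h : Le τ (d + 2) (loopVal * p)) :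
    Le τ d p := by
  have hττ : τ * τ = 1 := by rcases hτ with rfl | rfl <;> norm_num
  by_contra hcon
  unfold Le at hcon
  push Not at hcon
  obtain ⟨j₁, hj₁, hne₁⟩ := hcon
  set F : Finset ℤ := p.coeff.support.image fun m : ℤ => τ * m with hF
  have hmem : ∀ j : ℤ, p.coeff (τ * j) ≠ 0 → j ∈ F := by
    intro j hj
    refine Finset.mem_image.2 ⟨τ * j, Finsupp.mem_support_iff.2 hj, ?_⟩
    show τ * (τ * j) = j
    rw [← mul_assoc, hττ, one_mul]
  have hne : F.Nonempty := ⟨j₁, hmem j₁ hne₁⟩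
  have hmax := F.max'_mem hne
  set J := F.max' hne with hJ
  have hJ1 : j₁ ≤ J := F.le_max' _ (hmem j₁ hne₁)
  have hJne : p.coeff (τ * J) ≠ 0 := by
    rw [hF] at hmax
    obtain ⟨m, hm, hmJ⟩ := Finset.mem_image.1 hmax
    have e : τ * J = m := by
      rw [← hmJ]
      show τ * (τ * m) = m
      rw [← mul_assoc, hττ, one_mul]
    rw [e]
    exact Finsupp.mem_support_iff.1 hm
  have hz : p.coeff (τ * (J + 4)) = 0 := by
    by_contra hc
    have := F.le_max' _ (hmem (J + 4) hc)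
    rw [← hJ] at this
    omega
  have h2 := h (J + 2) (by omega)
  rw [cf_loop' hτ, add_sub_cancel_right, show J + 2 + 2 = J + 4 by ring, hz, add_zero] at h2
  exact hJne (neg_eq_zero.1 h2)

theorem le_of_pow {τ d : ℤ} (hτ : τ = 1 ∨ τ = -1) {p : LP} (l : ℕ)
    (h : Le τ (d + 2 * l) (loopVal ^ l * p)) : Le τ d p := by
  induction l with
  | zero => simpa using h
  | succ l ih =>
    refine ih (le_of_loop hτ ?_)
    have e : (loopVal * (loopVal ^ l * p) : LP) = loopVal ^ (l + 1) * p := by ring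
    have e2 : (d + 2 * (l : ℤ)) + 2 = d + 2 * ((l + 1 : ℕ) : ℤ) := by
      push_cast
      ring
    rw [e, e2]
    exact h

theorem loop_ne : (loopVal : LP) ≠ 0 := by
  intro h
  have h1 := congrArg (fun q : LP => q.coeff 2) h
  have h2 := cf_loop 2 1
  rw [mul_one] at h2
  have h3 : ((1 : LP)).coeff (2 - 2) = 1 := by
    show (AddMonoidAlgebra.single (0 : ℤ) (1 : ℤ)).coeff (2 - 2) = 1
    rw [AddMonoidAlgebra.coeff_single, Finsupp.single_apply, if_pos (by norm_num)]
  have h4 : ((1 : LP)).coeff (2 + 2) = 0 := by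
    show (AddMonoidAlgebra.single (0 : ℤ) (1 : ℤ)).coeff (2 + 2) = 0
    rw [AddMonoidAlgebra.coeff_single, Finsupp.single_apply, if_neg (by norm_num)]
  rw [h3, h4] at h2
  have h5 : (loopVal : LP).coeff 2 = 0 := h1
  rw [h2] at h5
  norm_num at h5

/-! ### products -/

theorem le_mul {τ d d' : ℤ} (hτ : τ = 1 ∨ τ = -1) {p q : LP} (hp : Le τ d p) (hq : Le τ d' q) :
    Le τ (d + d') (p * q) := by
  classical
  have hττ : τ * τ = 1 := by rcases hτ with rfl | rfl <;> norm_num
  intro j hj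
  by_contra hne
  have h1 := AddMonoidAlgebra.support_coeff_mul_subset p q (Finsupp.mem_support_iff.2 hne)
  obtain ⟨x, hx, y, hy, hxy⟩ := Finset.mem_add.1 h1
  have hx1 : τ * x ≤ d := by
    by_contra hc
    refine Finsupp.mem_support_iff.1 hx ?_
    have := hp (τ * x) (by omega)
    rwa [← mul_assoc, hττ, one_mul] at this
  have hy1 : τ * y ≤ d' := by
    by_contra hc
    refine Finsupp.mem_support_iff.1 hy ?_
    have := hq (τ * y) (by omega)
    rwa [← mul_assoc, hττ, one_mul] at this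
  have h2 : j = τ * x + τ * y := by
    have : τ * (x + y) = τ * (τ * j) := by rw [hxy]
    rw [← mul_assoc, hττ, one_mul] at this
    rw [← this]
    ring
  omega

theorem le_mono {τ d d' : ℤ} {p : LP} (h : Le τ d p) (hd : d ≤ d') : Le τ d' p :=
  fun j hj => h j (by omega)

theorem cf_add (p q : LP) (j : ℤ) : (p + q).coeff j = p.coeff j + q.coeff j := by
  rw [AddMonoidAlgebra.coeff_add, Finsupp.add_apply]

theorem le_add {τ d : ℤ} {p q : LP} (hp : Le τ d p) (hq : Le τ d q) : Le τ d (p + q) := by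
  intro j hj
  rw [cf_add, hp j hj, hq j hj, add_zero]

theorem cf_CT {τ : ℤ} (hτ : τ = 1 ∨ τ = -1) (a c j : ℤ) :
    (C a * T (τ * c) : LP).coeff (τ * j) = if j = c then a else 0 := by
  rw [← single_eq_C_mul_T, AddMonoidAlgebra.coeff_single, Finsupp.single_apply]
  congr 1
  rw [eq_iff_iff]
  rcases hτ with rfl | rfl
  · constructor <;> intro h <;> omega
  · constructor <;> intro h <;> omega

theorem le_CT {τ : ℤ} (hτ : τ = 1 ∨ τ = -1) (a c : ℤ) : Le τ c (C a * T (τ * c) : LP) := by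
  intro j hj
  rw [cf_CT hτ, if_neg (by omega)]

/-- the two extreme terms and the rest -/
theorem tp_split {τ d a b : ℤ} (hτ : τ = 1 ∨ τ = -1) {p : LP} (h : Tp τ d a b p) :
    ∃ r : LP, Le τ (d - 5) r ∧ p = C a * T (τ * d) + (C b * T (τ * (d - 4)) + r) := by
  refine ⟨p - (C a * T (τ * d) + C b * T (τ * (d - 4))), fun j hj => ?_, by ring⟩
  have e : (p - (C a * T (τ * d) + C b * T (τ * (d - 4)))) +
      (C a * T (τ * d) + C b * T (τ * (d - 4))) = p := by ring
  have e2 : ((p - (C a * T (τ * d) + C b * T (τ * (d - 4)))) +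
      (C a * T (τ * d) + C b * T (τ * (d - 4)))).coeff (τ * j) = p.coeff (τ * j) := by rw [e]
  rw [cf_add, cf_add, cf_CT hτ, cf_CT hτ] at e2
  rcases lt_trichotomy j d with h1 | h1 | h1
  · rcases lt_trichotomy j (d - 4) with h2 | h2 | h2
    · omega
    · rw [if_neg (by omega), if_pos h2] at e2
      have h3 := h.next
      rw [← h2] at h3
      linarith
    · rw [if_neg (by omega), if_neg (by omega), h.gap j h2 h1] at e2
      linarith
  · rw [if_pos h1, if_neg (by omega)] at e2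
    have h3 := h.top
    rw [← h1] at h3
    linarith
  · rw [if_neg (by omega), if_neg (by omega), h.le j h1] at e2
    linarith

theorem tp_mul {τ d a b d' a' b' : ℤ} (hτ : τ = 1 ∨ τ = -1) {p q : LP} (hp : Tp τ d a b p)
    (hq : Tp τ d' a' b' q) : Tp τ (d + d') (a * a') (a * b' + b * a') (p * q) := by
  obtain ⟨r, hr, ep⟩ := tp_split hτ hp
  obtain ⟨s, hs, eq⟩ := tp_split hτ hq
  have hT : ∀ x y : ℤ, (T (τ * x) : LP) * T (τ * y) = T (τ * (x + y)) := by
    intro x y
    rw [← T_add]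
    congr 1
    ring
  -- the remainder
  set R : LP := (C b * T (τ * (d - 4))) * (C b' * T (τ * (d' - 4))) +
    (r * q + (C a * T (τ * d) + C b * T (τ * (d - 4))) * s) with hR
  have hRle : Le τ (d + d' - 5) R := by
    refine le_add ?_ (le_add ?_ ?_)
    · exact le_mono (le_mul hτ (le_CT hτ b (d - 4)) (le_CT hτ b' (d' - 4))) (by omega)
    · exact le_mono (le_mul hτ hr hq.le) (by omega)
    · refine le_mono (le_mul hτ (le_add (le_CT hτ a d)
        (le_mono (le_CT hτ b (d - 4)) (by omega))) hs) (by omega)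
  have hpq : p * q = C (a * a') * T (τ * (d + d')) +
      (C (a * b' + b * a') * T (τ * (d + d' - 4)) + R) := by
    have e1 : (T (τ * (d + d')) : LP) = T (τ * d) * T (τ * d') := (hT d d').symm
    have e2 : (T (τ * (d + d' - 4)) : LP) = T (τ * d) * T (τ * (d' - 4)) := by
      rw [hT]
      congr 1
      ring
    have e3 : (T (τ * (d + d' - 4)) : LP) = T (τ * (d - 4)) * T (τ * d') := by
      rw [hT]
      congr 1
      ring
    have e4 : (C (a * b' + b * a') * T (τ * (d + d' - 4)) : LP) =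
        C a * C b' * (T (τ * d) * T (τ * (d' - 4))) + C b * C a' * (T (τ * (d - 4)) * T (τ * d')) := by
      rw [← e2, ← e3, map_add, map_mul, map_mul]
      ring
    rw [e4, e1, map_mul, hR]
    calc p * q = (C a * T (τ * d) + C b * T (τ * (d - 4))) * q + r * q := by
            conv_lhs => rw [ep]
            ring
      _ = (C a * T (τ * d) + C b * T (τ * (d - 4))) *
          (C a' * T (τ * d') + (C b' * T (τ * (d' - 4)) + s)) + r * q := by rw [← eq]
      _ = _ := by ring
  have hco : ∀ j : ℤ, (p * q).coeff (τ * j) = (if j = d + d' then a * a' else 0) +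
      ((if j = d + d' - 4 then a * b' + b * a' else 0) + R.coeff (τ * j)) := by
    intro j
    rw [hpq, cf_add, cf_add, cf_CT hτ, cf_CT hτ]
  refine ⟨fun j hj => ?_, ?_, fun j h1 h2 => ?_, ?_⟩
  · rw [hco, if_neg (by omega), if_neg (by omega), hRle j (by omega)]
    norm_num
  · rw [hco, if_pos rfl, if_neg (by omega), hRle _ (by omega)]
    norm_num
  · rw [hco, if_neg (by omega), if_neg (by omega), hRle j (by omega)]
    norm_num
  · rw [hco, if_neg (by omega), if_pos rfl, hRle _ (by omega)]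
    norm_num

theorem tp_one {τ : ℤ} (hτ : τ = 1 ∨ τ = -1) : Tp τ 0 1 0 (1 : LP) := by
  have e : (1 : LP) = C 1 * T (τ * 0) := by
    rw [mul_zero, T_zero, map_one, one_mul]
  rw [e]
  refine ⟨le_CT hτ 1 0, ?_, fun j h1 h2 => ?_, ?_⟩
  · rw [cf_CT hτ, if_pos rfl]
  · rw [cf_CT hτ, if_neg (by omega)]
  · rw [cf_CT hτ, if_neg (by norm_num)]

theorem le_prod {ι : Type} {τ : ℤ} (hτ : τ = 1 ∨ τ = -1) (s : Finset ι) (d : ι → ℤ) (P : ι → LP)
    (h : ∀ i ∈ s, Le τ (d i) (P i)) : Le τ (∑ i ∈ s, d i) (∏ i ∈ s, P i) := by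
  classical
  induction s using Finset.induction_on with
  | empty =>
    rw [Finset.sum_empty, Finset.prod_empty]
    exact (tp_one hτ).le
  | insert i s hi ih =>
    rw [Finset.sum_insert hi, Finset.prod_insert hi]
    exact le_mul hτ (h i (Finset.mem_insert_self _ _))
      (ih fun j hj => h j (Finset.mem_insert_of_mem hj))

/-- the top coefficient of a product -/
theorem cf_mul {τ d d' : ℤ} (hτ : τ = 1 ∨ τ = -1) {p q : LP} (hp : Le τ d p) (hq : Le τ d' q) :
    (p * q).coeff (τ * (d + d')) = p.coeff (τ * d) * q.coeff (τ * d') := by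
  have hsp : ∀ (d : ℤ) (p : LP), Le τ d p → ∃ r : LP, Le τ (d - 1) r ∧
      p = C (p.coeff (τ * d)) * T (τ * d) + r := by
    intro d p hp
    refine ⟨p - C (p.coeff (τ * d)) * T (τ * d), fun j hj => ?_, by ring⟩
    have e2 : ((p - C (p.coeff (τ * d)) * T (τ * d)) +
        C (p.coeff (τ * d)) * T (τ * d)).coeff (τ * j) = p.coeff (τ * j) := by
      rw [sub_add_cancel]
    rw [cf_add, cf_CT hτ] at e2
    rcases lt_trichotomy j d with h1 | h1 | h1
    · omega
    · rw [if_pos h1, h1] at e2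
      rw [h1]
      linarith
    · rw [if_neg (by omega), hp j h1] at e2
      linarith
  obtain ⟨r, hr, ep⟩ := hsp d p hp
  obtain ⟨s, hs, eq⟩ := hsp d' q hq
  set A := p.coeff (τ * d)
  set B := q.coeff (τ * d')
  have e1 : p * q = C (A * B) * T (τ * (d + d')) + (r * q + C A * T (τ * d) * s) := by
    have e3 : (T (τ * (d + d')) : LP) = T (τ * d) * T (τ * d') := by
      rw [← T_add]
      congr 1
      ring
    rw [e3, map_mul]
    calc p * q = C A * T (τ * d) * q + r * q := by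
            conv_lhs => rw [ep]
            ring
      _ = C A * T (τ * d) * (C B * T (τ * d') + s) + r * q := by rw [← eq]
      _ = _ := by ring
  have e2 : Le τ (d + d' - 1) (r * q + C A * T (τ * d) * s) :=
    le_add (le_mono (le_mul hτ hr hq) (by omega))
      (le_mono (le_mul hτ (le_CT hτ A d) hs) (by omega))
  rw [e1, cf_add, cf_CT hτ, if_pos rfl, e2 _ (by omega), add_zero]

theorem cf_prod {ι : Type} {τ : ℤ} (hτ : τ = 1 ∨ τ = -1) (s : Finset ι) (d : ι → ℤ) (P : ι → LP)
    (h : ∀ i ∈ s, Le τ (d i) (P i)) :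
    (∏ i ∈ s, P i).coeff (τ * ∑ i ∈ s, d i) = ∏ i ∈ s, (P i).coeff (τ * d i) := by
  classical
  induction s using Finset.induction_on with
  | empty =>
    rw [Finset.sum_empty, Finset.prod_empty, Finset.prod_empty]
    exact (tp_one hτ).top
  | insert i s hi ih =>
    rw [Finset.sum_insert hi, Finset.prod_insert hi, Finset.prod_insert hi,
      cf_mul hτ (h i (Finset.mem_insert_self _ _))
        (le_prod hτ s d P fun j hj => h j (Finset.mem_insert_of_mem hj)),
      ih fun j hj => h j (Finset.mem_insert_of_mem hj)]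

theorem tp_prod {ι : Type} {τ : ℤ} (hτ : τ = 1 ∨ τ = -1) (s : Finset ι) (d α β : ι → ℤ)
    (P : ι → LP) (hα : ∀ i ∈ s, α i = 1 ∨ α i = -1)
    (h : ∀ i ∈ s, Tp τ (d i) (α i) (β i) (P i)) :
    ((∏ i ∈ s, α i) = 1 ∨ (∏ i ∈ s, α i) = -1) ∧
    ∃ b : ℤ, Tp τ (∑ i ∈ s, d i) (∏ i ∈ s, α i) b (∏ i ∈ s, P i) ∧
      (∏ i ∈ s, α i) * b = ∑ i ∈ s, α i * β i := by
  classical
  induction s using Finset.induction_on with
  | empty =>
    refine ⟨Or.inl Finset.prod_empty, 0, ?_, by simp⟩
    rw [Finset.sum_empty, Finset.prod_empty, Finset.prod_empty]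
    exact tp_one hτ
  | insert i s hi ih =>
    obtain ⟨h1, b, h2, h3⟩ := ih (fun j hj => hα j (Finset.mem_insert_of_mem hj))
      (fun j hj => h j (Finset.mem_insert_of_mem hj))
    have h4 := hα i (Finset.mem_insert_self _ _)
    rw [Finset.sum_insert hi, Finset.prod_insert hi, Finset.prod_insert hi, Finset.sum_insert hi]
    refine ⟨?_, α i * b + β i * ∏ i ∈ s, α i, tp_mul hτ (h i (Finset.mem_insert_self _ _)) h2, ?_⟩
    · rcases h4 with h5 | h5 <;> rcases h1 with h6 | h6 <;> rw [h5, h6] <;> norm_num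
    · have e1 : α i * α i = 1 := by rcases h4 with h5 | h5 <;> rw [h5] <;> norm_num
      have e2 : (∏ i ∈ s, α i) * (∏ i ∈ s, α i) = 1 := by
        rcases h1 with h5 | h5 <;> rw [h5] <;> norm_num
      generalize (∏ i ∈ s, α i) = Q at h3 e2 ⊢
      calc α i * Q * (α i * b + β i * Q) = (α i * α i) * (Q * b) + α i * β i * (Q * Q) := by ring
        _ = _ := by rw [e1, e2, h3]; ring

end Pool.TMS
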