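import Pool.Agent.TMS.StE
import Pool.Agent.TMS.Lau

/-!
# TMS / COM: the two extreme coefficients, several arcs
-/

set_option autoImplicit false

namespace Pool.TMS

open LaurentPolynomial Pool.Agent.ARB Pool.Agent.Helper2 Pool.ALT Pool.TWC

/-- the unit -/
private theorem com_unit {τ : ℤ} (hτ : τ = 1 ∨ τ = -1) (c s : ℤ) :
    Tp τ (τ * c + 2) (-s) (-s) (loopVal * (C s * T c)) := by
  have h0 : ∀ i : ℤ, (C s * T c : LP).coeff (τ * i) = if i = τ * c then s else 0 := by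
    intro i
    rw [← single_eq_C_mul_T, AddMonoidAlgebra.coeff_single, Finsupp.single_apply]
    congr 1
    rw [eq_iff_iff]
    rcases hτ with rfl | rfl
    · constructor <;> intro h <;> omega
    · constructor <;> intro h <;> omega
  refine ⟨fun j hj => ?_, ?_, fun j h1 h2 => ?_, ?_⟩
  · rw [cf_loop' hτ, h0, h0, if_neg (by omega), if_neg (by omega)]
    simp
  · rw [cf_loop' hτ, h0, h0, if_pos (by omega), if_neg (by omega), add_zero]
  · rw [cf_loop' hτ, h0, h0, if_neg (by omega), if_neg (by omega)]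
    simp
  · rw [cf_loop' hτ, h0, h0, if_neg (by omega), if_pos (by omega), zero_add]

theorem thm_COM : St_COM := by
  classical
  intro N g n₀ w m₀ k τ p V q K hτ hk hPHT h hm hV0 hK0 hVK hVle hsum hu
  have hττ : τ * τ = 1 := by
    rcases hτ with rfl | rfl <;> norm_num
  set Δ : ℤ := ∑ i, dph τ (k i) (w i) with hΔ
  -- the single arcs
  have hα : ∀ i : Fin g, ∃ α β : ℤ, (α = 1 ∨ α = -1) ∧ (α * β ≤ (if m₀ i = 0 then 0 else 1)) ∧
      Tp τ (dph τ (k i) (w i)) α β (Ph (k i) (m₀ i)) ∧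
      (∀ m : ℕ, (m = m₀ i ∨ (m₀ i = 2 ∧ m = 0)) →
        (Ph (k i) m).coeff (τ * dph τ (k i) (w i)) = α ∧
        Le τ (dph τ (k i) (w i)) (Ph (k i) m)) := by
    intro i
    obtain ⟨P1, P2, P3, P4, P5, -⟩ := hPHT (k i) τ hτ (hk i)
    obtain ⟨h1, h2⟩ := hm i
    rcases (by omega : m₀ i = 0 ∨ m₀ i = 1 ∨ m₀ i = 2) with h0 | h0 | h0
    · have hd : dph τ (k i) (w i) = 0 := if_pos (by omega)
      rw [hd, h0]
      refine ⟨1, 0, Or.inl rfl, by rw [if_pos rfl]; norm_num, P3, fun m h3 => ?_⟩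
      rcases h3 with h3 | h3
      · rw [h3]
        exact ⟨P3.top, P3.le⟩
      · omega
    · have hd : dph τ (k i) (w i) = 2 + 3 * (τ * k i) := if_neg (by omega)
      rw [hd, h0]
      refine ⟨-1, -1, Or.inr rfl, by rw [if_neg (by norm_num)]; norm_num, P4, fun m h3 => ?_⟩
      rcases h3 with h3 | h3
      · rw [h3]
        exact ⟨P4.top, P4.le⟩
      · omega
    · have hd : dph τ (k i) (w i) = 0 := if_pos (by omega)
      rw [hd, h0]
      refine ⟨1, if τ * k i = -1 then 1 else 0, Or.inl rfl, ?_, P5, fun m h3 => ?_⟩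
      · rw [if_neg (show ¬ (2 : ℕ) = 0 by norm_num)]
        split_ifs <;> norm_num
      · rcases h3 with h3 | h3
        · rw [h3]
          exact ⟨P5.top, P5.le⟩
        · rw [h3.2]
          exact ⟨P3.top, P3.le⟩
  choose α β hα1 hβ hTi hTi2 using hα
  obtain ⟨hA1, B, hB, hAB⟩ := tp_prod hτ Finset.univ (fun i => dph τ (k i) (w i)) α β
    (fun i => Ph (k i) (m₀ i)) (fun i _ => hα1 i) (fun i _ => hTi i)
  rw [← hΔ] at hB
  set A : ℤ := ∏ i, α i with hA
  set d₀ : ℤ := N + 2 * n₀ + Δ with hd₀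
  set F : Finset (Fin N) → LP := fun S => T (τ * ((N : ℤ) - 2 * S.card)) * V S with hF
  have hcancel : ∀ (l : ℕ) (x y : LP), loopVal ^ l * x = loopVal ^ l * y → x = y :=
    fun l x y hxy => mul_left_cancel₀ (pow_ne_zero l loop_ne) hxy
  -- the empty state
  have hF0 : Tp τ d₀ ((-1) ^ n₀ * A) ((-1) ^ n₀ * (n₀ * A + B)) (F ∅) := by
    have h1 : V ∅ = loopVal ^ n₀ * ∏ i, Ph (k i) (m₀ i) := by
      refine hcancel (q ∅) _ _ ?_
      rw [hV0, pow_add]
      ring
    have h2 := tp_T ((N : ℤ) - 2 * (∅ : Finset (Fin N)).card) (tp_pow hτ hB n₀)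
    have e : Δ + 2 * (n₀ : ℤ) + ((N : ℤ) - 2 * (∅ : Finset (Fin N)).card) = d₀ := by
      rw [Finset.card_empty, hd₀]
      push_cast
      ring
    rw [e] at h2
    rw [hF]
    simp only
    rw [h1]
    exact h2
  -- the states in K
  have hFK : ∀ S ∈ K, Le τ (d₀ - 4) (F S) ∧
      (F S).coeff (τ * (d₀ - 4)) = (-1) ^ n₀ * A * (-1) ^ S.card := by
    intro S hS
    obtain ⟨l, m, hl, hmi, hv⟩ := hVK S hS
    set X : LP := ∏ i, Ph (k i) (m i) with hX
    have hXle : Le τ Δ X := le_prod hτ _ _ _ fun i _ => (hTi2 i (m i) (hmi i)).2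
    have hXtop : X.coeff (τ * Δ) = A := by
      rw [hX, hΔ, cf_prod hτ Finset.univ (fun i => dph τ (k i) (w i)) (fun i => Ph (k i) (m i))
        (fun i _ => (hTi2 i (m i) (hmi i)).2), hA]
      exact Finset.prod_congr rfl fun i _ => (hTi2 i (m i) (hmi i)).1
    -- the state
    have h1 : Le τ (Δ + 2 * (l : ℤ)) (loopVal ^ q S * V S) := by
      rw [hv]
      exact le_pow hτ hXle l
    have e1 : Δ + 2 * (l : ℤ) = (Δ + 2 * (n₀ : ℤ) + 2 * S.card - 4) + 2 * (q S : ℤ) := by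
      have : (l : ℤ) + 2 = n₀ + S.card + q S := by exact_mod_cast hl
      linarith
    have h2 : Le τ (Δ + 2 * (n₀ : ℤ) + 2 * S.card - 4) (V S) := by
      rw [e1] at h1
      exact le_of_pow hτ _ h1
    have h3 := top_pow hτ h2 (q S)
    have h4 := top_pow hτ hXle l
    rw [← e1, hv, h4, hXtop] at h3
    have h5 : (V S).coeff (τ * (Δ + 2 * (n₀ : ℤ) + 2 * S.card - 4)) =
        (-1) ^ n₀ * A * (-1) ^ S.card := by
      have e2 : (-1 : ℤ) ^ q S * (-1) ^ q S = 1 := by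
        rw [← pow_add, ← two_mul, pow_mul]
        norm_num
      have e3 : (-1 : ℤ) ^ q S * (-1) ^ l = (-1) ^ n₀ * (-1) ^ S.card := by
        have e4 : (-1 : ℤ) ^ (l + 2) = (-1) ^ l := by
          rw [pow_add]
          norm_num
        rw [← e4, hl, pow_add, pow_add]
        calc (-1 : ℤ) ^ q S * ((-1) ^ n₀ * (-1) ^ S.card * (-1) ^ q S) =
            ((-1) ^ q S * (-1) ^ q S) * ((-1) ^ n₀ * (-1) ^ S.card) := by ring
          _ = _ := by rw [e2, one_mul]
      calc (V S).coeff (τ * (Δ + 2 * (n₀ : ℤ) + 2 * S.card - 4)) =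
          ((-1 : ℤ) ^ q S * (-1) ^ q S) *
            (V S).coeff (τ * (Δ + 2 * (n₀ : ℤ) + 2 * S.card - 4)) := by rw [e2, one_mul]
        _ = (-1 : ℤ) ^ q S * ((-1) ^ q S *
            (V S).coeff (τ * (Δ + 2 * (n₀ : ℤ) + 2 * S.card - 4))) := by ring
        _ = ((-1 : ℤ) ^ q S * (-1) ^ l) * A := by rw [← h3]; ring
        _ = _ := by rw [e3]; ring
    have e5 : Δ + 2 * (n₀ : ℤ) + 2 * S.card - 4 + ((N : ℤ) - 2 * S.card) = d₀ - 4 := by
      rw [hd₀]
      ring
    refine ⟨?_, ?_⟩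
    · rw [← e5]
      exact le_T _ h2
    · rw [hF]
      simp only
      rw [cf_T', ← e5, add_sub_cancel_right]
      exact h5
  -- the other states
  have hFn : ∀ S, S ≠ ∅ → S ∉ K → Le τ (d₀ - 8) (F S) := by
    intro S h1 h2
    have h3 := le_T ((N : ℤ) - 2 * S.card) (hVle S h1 h2)
    have e : 2 * (n₀ : ℤ) + Δ + 2 * S.card - 8 + ((N : ℤ) - 2 * S.card) = d₀ - 8 := by
      rw [hd₀]
      ring
    rw [e] at h3
    exact h3
  have hFle : ∀ S, S ≠ ∅ → Le τ (d₀ - 4) (F S) := by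
    intro S h1
    by_cases h2 : S ∈ K
    · exact (hFK S h2).1
    · exact le_mono (hFn S h1 h2) (by omega)
  -- the coefficients of the sum
  have hco : ∀ j : ℤ, (∑ S : Finset (Fin N), F S).coeff j = ∑ S : Finset (Fin N), (F S).coeff j := by
    intro j
    rw [AddMonoidAlgebra.coeff_sum, Finset.sum_apply']
  have hTp : Tp τ d₀ ((-1) ^ n₀ * A) ((-1) ^ n₀ * (n₀ * A + B) +
      ∑ S ∈ K, (-1) ^ n₀ * A * (-1) ^ S.card) (∑ S : Finset (Fin N), F S) := by
    refine ⟨fun j hj => ?_, ?_, fun j h1 h2 => ?_, ?_⟩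
    · rw [hco]
      refine Finset.sum_eq_zero fun S _ => ?_
      by_cases hS : S = ∅
      · rw [hS]
        exact hF0.le j hj
      · exact hFle S hS j (by omega)
    · rw [hco, Finset.sum_eq_single ∅]
      · exact hF0.top
      · intro S _ hS
        exact hFle S hS _ (by omega)
      · intro h1
        exact absurd (Finset.mem_univ _) h1
    · rw [hco, Finset.sum_eq_single ∅]
      · exact hF0.gap j h1 h2
      · intro S _ hS
        exact hFle S hS _ h1
      · intro h1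
        exact absurd (Finset.mem_univ _) h1
    · rw [hco, ← Finset.add_sum_erase _ _ (Finset.mem_univ (∅ : Finset (Fin N))), hF0.next]
      congr 1
      have e1 : K = (Finset.univ.erase (∅ : Finset (Fin N))).filter (fun S => S ∈ K) := by
        ext S
        simp only [Finset.mem_filter, Finset.mem_univ, Finset.mem_erase, and_true]
        constructor
        · intro h1
          refine ⟨fun h2 => ?_, h1⟩
          rw [h2] at h1
          exact hK0 h1
        · exact fun h1 => h1.2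
      conv_rhs => rw [e1]
      rw [Finset.sum_filter]
      refine Finset.sum_congr rfl fun S hS => ?_
      split_ifs with h1
      · exact (hFK S h1).2
      · exact hFn S (Finset.ne_of_mem_erase hS) h1 _ (by omega)
  -- the left side
  obtain ⟨j, ε, hp⟩ := Pool.Agent.TWB.thm_Uni p hu
  have hs : (((ε : ℤˣ) : ℤ) = 1) ∨ (((ε : ℤˣ) : ℤ) = -1) := by
    rcases Int.units_eq_one_or ε with h1 | h1
    · left
      rw [h1]
      rfl
    · right
      rw [h1]
      rfl
  generalize ((ε : ℤˣ) : ℤ) = s at hp hs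
  set W : ℤ := 3 * ∑ i, k i * w i with hW
  have hL : Tp τ (τ * j + 2 + τ * W) (-s) (-s) (T W * (loopVal * p)) := by
    have h1 := tp_T (τ * W) (com_unit hτ j s)
    have e : τ * (τ * W) = W := by
      rw [← mul_assoc, hττ, one_mul]
    rw [e] at h1
    rw [hp]
    exact h1
  rw [h] at hL
  set d₁ : ℤ := τ * j + 2 + τ * W with hd₁
  have hsg : ((-1 : ℤ) ^ n₀ = 1) ∨ ((-1 : ℤ) ^ n₀ = -1) := neg_one_pow_eq_or ℤ n₀
  have hane : (-1 : ℤ) ^ n₀ * A ≠ 0 := by
    rcases hsg with h1 | h1 <;> rcases hA1 with h2 | h2 <;> rw [h1, h2] <;> norm_num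
  have hsne : -s ≠ 0 := by
    rcases hs with h1 | h1 <;> rw [h1] <;> norm_num
  have hdd : d₀ = d₁ := by
    rcases lt_trichotomy d₀ d₁ with h1 | h1 | h1
    · exact absurd (hL.top.symm.trans (hTp.le _ h1)) hsne
    · exact h1
    · exact absurd (hTp.top.symm.trans (hL.le _ h1)) hane
  rw [← hdd] at hL
  have ha : (-1 : ℤ) ^ n₀ * A = -s := hTp.top.symm.trans hL.top
  have hbs := hTp.next.symm.trans hL.next
  have hab : ((-1 : ℤ) ^ n₀ * A) * ((-1) ^ n₀ * (n₀ * A + B) +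
      ∑ S ∈ K, (-1) ^ n₀ * A * (-1) ^ S.card) = 1 := by
    rw [hbs, ha]
    rcases hs with h1 | h1 <;> rw [h1] <;> norm_num
  have hab2 : ((-1 : ℤ) ^ n₀ * A) * ((-1) ^ n₀ * (n₀ * A + B) +
      ∑ S ∈ K, (-1) ^ n₀ * A * (-1) ^ S.card) = (n₀ : ℤ) + ∑ i, α i * β i +
      ∑ S ∈ K, (-1 : ℤ) ^ S.card := by
    rw [← Finset.mul_sum]
    have e1 : (-1 : ℤ) ^ n₀ * (-1) ^ n₀ = 1 := by
      rcases hsg with h1 | h1 <;> rw [h1] <;> norm_num
    have e2 : A * A = 1 := by
      rcases hA1 with h1 | h1 <;> rw [h1] <;> norm_num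
    rw [← hAB]
    generalize (∑ S ∈ K, (-1 : ℤ) ^ S.card) = Q
    calc ((-1 : ℤ) ^ n₀ * A) * ((-1) ^ n₀ * (n₀ * A + B) + (-1) ^ n₀ * A * Q) =
        ((-1 : ℤ) ^ n₀ * (-1) ^ n₀) * ((A * A) * n₀ + A * B + (A * A) * Q) := by ring
      _ = _ := by rw [e1, e2]; ring
  have hβs : ∑ i, α i * β i ≤ ∑ i : Fin g, (if m₀ i = 0 then (0 : ℤ) else 1) :=
    Finset.sum_le_sum fun i _ => hβ i
  have hfin := hab.symm.trans hab2
  linarith

end Pool.TMS
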