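import Pool.Agent.TWC.Defs

/-!
# TMS: full twists along several arcs of an alternating diagram, definitions

Diagrams in Morse position are words of elementary pieces, read from bottom to top; `(l, i)` is the
gap `i` above the first `l` pieces, `Same D`: two gaps belong to the same region of `D`, `Touch D x l`:
the region of the gap `x` is at the crossing number `l` (see `TWI/Defs.lean`). `FT w k`: `k` full
twists of the first `w` strands (see `TWC/Defs.lean`).
-/

set_option autoImplicit false

namespace Pool.TMS

open Pool.Agent.ARB Pool.TWC
open Pool.TWI (Same Touch)

/-- `k i` full twists of the strands `a i, a i + 1, ..., a i + w i - 1`, for all `i` -/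
def tw {g : ℕ} (a w : Fin g → ℕ) (k : Fin g → ℤ) : Word :=
  (List.ofFn fun i => sh (a i) (FT (w i) (k i))).flatten

/-- The regions of the gaps `x` and `y` are different and have no crossing in common. -/
def Sep (D : Word) (x y : ℕ × ℕ) : Prop :=
  ¬ Same D x y ∧ ∀ l, ¬ (Touch D x l ∧ Touch D y l)

end Pool.TMS
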