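import Pool.Agent.TMS.Stmt
import Pool.Agent.TMX.DefD
import Pool.Agent.TWC.MTR
import Pool.Agent.TWC.NBR
import Pool.Agent.TWC.POS
import Pool.Agent.TWC.RED

/-!
# TMS / GEO: the geometric hypotheses in terms of local regions
-/

set_option autoImplicit false

namespace Pool.TMS

open Pool.Agent.ARB Pool.ALT Pool.TWC
open Pool.TWI (Same Touch)

private theorem geo_gs (h1 : St_POS) {D : Word} {n m : ℕ} (hD : Ok D n m) {x y : Loc n D}
    (h : gs n D x y) : Same D (pos n D x) (pos n D y) := by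
  have h2 : gs n D ≤ (Relation.EqvGen.setoid fun x y : ℕ × ℕ =>
      ∃ s, D[x.1]? = some s ∧ y.1 = x.1 + 1 ∧ Pool.TWI.Pass s x.2 y.2).comap (pos n D) :=
    iSup_le fun x => iSup_le fun y => iSup_le fun h => (pr_le_iff _ _ _).2 (h1.1 D n m x y hD h)
  exact h2 h

private theorem geo_arc {D : Word} {j : ℕ} {x y z : ℕ × ℕ} (h : Arc D j x y)
    (h' : Same D y z) : Arc D j x z := by
  cases h with
  | same h => exact Arc.same (Relation.EqvGen.trans _ _ _ h h')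
  | right h hl hi h2 => exact Arc.right h hl hi (Relation.EqvGen.trans _ _ _ h2 h')
  | left h hl hi h2 => exact Arc.left h hl hi (Relation.EqvGen.trans _ _ _ h2 h')

private theorem geo_ad (h1 : St_POS) {D : Word} (hD : Ok D 0 0) {j : ℕ} {F : ℕ × ℕ}
    {x y : Loc 0 D} (h : Arc D j F (pos 0 D x)) (ha : Ad 0 D x y) :
    Arc D (j + 1) F (pos 0 D y) := by
  rcases ha with ha | ha
  · obtain ⟨l, i, hl, hi, e1, e2⟩ := h1.2.2.2 D 0 0 x y hD ha
    rw [e1] at h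
    rw [e2]
    exact Arc.right h hl hi (Relation.EqvGen.refl _)
  · obtain ⟨l, i, hl, hi, e1, e2⟩ := h1.2.2.2 D 0 0 y x hD ha
    rw [e2] at h
    rw [e1]
    exact Arc.left h hl hi (Relation.EqvGen.refl _)

private theorem geo_gs' (h1 : St_POS) {D : Word} (hD : Ok D 0 0) {j : ℕ} {F : ℕ × ℕ}
    {x y : Loc 0 D} (h : Arc D j F (pos 0 D x)) (ha : gs 0 D x y) : Arc D j F (pos 0 D y) :=
  geo_arc h (geo_gs h1 hD ha)

private theorem geo_two (h1 : St_POS) (h2 : St_NBR) {D : Word} (hD : Ok D 0 0) {j : ℕ} {F : ℕ × ℕ}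
    (r : Bool) (k : Fin (nX D)) {a b : Loc 0 D}
    (ha : a = (ed r 0 D k).1 ∨ a = (ed r 0 D k).2) (hb : b = (ed r 0 D k).1 ∨ b = (ed r 0 D k).2)
    (h : Arc D j F (pos 0 D a)) : Arc D (j + 2) F (pos 0 D b) := by
  cases r
  · obtain ⟨x', y', g1, g2, g3⟩ := h2 D 0 0 k hD (ed true 0 D k).1 a (Or.inl rfl) ha
    obtain ⟨x'', y'', g4, g5, g6⟩ := h2 D 0 0 k hD (ed true 0 D k).1 b (Or.inl rfl) hb
    have s1 := geo_gs' h1 hD h g2
    have s2 := geo_ad h1 hD s1 (Or.symm g3)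
    have s3 := geo_gs' h1 hD s2 ((gs 0 D).trans' ((gs 0 D).symm' g1) g4)
    have s4 := geo_ad h1 hD s3 g6
    exact geo_gs' h1 hD s4 ((gs 0 D).symm' g5)
  · obtain ⟨x', y', g1, g2, g3⟩ := h2 D 0 0 k hD a (ed false 0 D k).1 ha (Or.inl rfl)
    obtain ⟨x'', y'', g4, g5, g6⟩ := h2 D 0 0 k hD b (ed false 0 D k).1 hb (Or.inl rfl)
    have s1 := geo_gs' h1 hD h g1
    have s2 := geo_ad h1 hD s1 g3
    have s3 := geo_gs' h1 hD s2 ((gs 0 D).trans' ((gs 0 D).symm' g2) g5)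
    have s4 := geo_ad h1 hD s3 (Or.symm g6)
    exact geo_gs' h1 hD s4 ((gs 0 D).symm' g4)

private theorem geo_ok : ∀ (u v : Word) (a b c : ℕ), Ok u a b → Ok v b c → Ok (u ++ v) a c
  | [], v, a, b, c, h, h' => by
      have h2 : a = b := h
      subst h2
      exact h'
  | s :: u, v, a, b, c, h, h' => ⟨h.1, geo_ok u v _ b c h.2 h'⟩

/-- the two ends of an edge are at the same crossing -/
private theorem geo_touch (h1 : St_POS) {D : Word} (hD : Ok D 0 0) (r : Bool) (k : Fin (nX D)) :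
    ∃ l : ℕ, ∀ x : Loc 0 D, (gs 0 D x (ed r 0 D k).1 ∨ gs 0 D x (ed r 0 D k).2) →
      Touch D (pos 0 D x) l := by
  obtain ⟨l, i, p, hl, -, hr⟩ := h1.2.1 D 0 0 k hD
  have hr' := hr r
  refine ⟨l, fun x hx => ⟨i, p, hl, ?_⟩⟩
  split_ifs at hr' with hi
  · rcases hx with hx | hx
    · have := geo_gs h1 hD hx
      rw [hr'.1] at this
      exact Or.inl this
    · have := geo_gs h1 hD hx
      rw [hr'.2] at this
      exact Or.inr (Or.inr (Or.inl this))
  · rcases hx with hx | hx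
    · have := geo_gs h1 hD hx
      rw [hr'.1] at this
      exact Or.inr (Or.inl this)
    · have := geo_gs h1 hD hx
      rw [hr'.2] at this
      exact Or.inr (Or.inr (Or.inr this))

theorem thm_GEO {r : Bool} {u v : Word} {n g : ℕ} {a w : Fin (g + 1) → ℕ}
    (h : Arcs r u v n a w) : Pool.TMX.Geo r u v a w := by
  have h1 : St_POS := thm_POS
  have h2 : St_NBR := thm_NBR
  have hn : n = wd 0 u := MTR_wd u 0 n h.oku
  have hD : Ok (u ++ v) 0 0 := geo_ok u v 0 n 0 h.oku h.okv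
  have hp : ∀ j ≤ n, pos 0 (u ++ v) (md 0 u v j) = (u.length, j) := fun j hj =>
    h1.2.2.1 u v 0 n j h.oku hj
  have h0 : ∀ i, Arc (u ++ v) 0 (u.length, a i) (pos 0 (u ++ v) (md 0 u v (a i))) := by
    intro i
    have := h.le i
    rw [hp _ (by omega)]
    exact Arc.same (Relation.EqvGen.refl _)
  have hFar : ∀ i, ∀ j ≤ 2,
      ¬ Arc (u ++ v) j (u.length, a i) (pos 0 (u ++ v) (md 0 u v (a i + w i))) := by
    intro i j hj
    rw [hp _ (h.le i)]
    exact h.far i j hj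
  refine ⟨?_, ?_, h.lt, ?_, thm_RED h1 (u ++ v) hD h.red r, fun i hg => ?_, fun i k => ⟨?_, ?_⟩, ?_⟩
  · rw [← hn]
    exact h.oku
  · rw [← hn]
    exact h.okv
  · intro i
    rw [← hn]
    exact h.le i
  · exact hFar i 0 (Nat.zero_le 2) (geo_gs' h1 hD (h0 i) hg)
  · rintro ⟨g1, g2⟩
    exact hFar i 2 le_rfl (geo_gs' h1 hD (geo_two h1 h2 hD r k (Or.inl rfl) (Or.inr rfl)
      (geo_gs' h1 hD (h0 i) g1)) ((gs 0 (u ++ v)).symm' g2))
  · rintro ⟨g1, g2⟩
    exact hFar i 2 le_rfl (geo_gs' h1 hD (geo_two h1 h2 hD r k (Or.inr rfl) (Or.inl rfl)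
      (geo_gs' h1 hD (h0 i) g1)) ((gs 0 (u ++ v)).symm' g2))
  · intro i l hil s hs t ht ps pt
    have e1 := h.le i
    have e2 := h.le l
    obtain ⟨s1, s2⟩ := h.sep i l hil (a i + s) (a l + t) (by omega) (by omega) (by omega)
      (by omega) ps pt
    rw [← hp (a i + s) (by omega), ← hp (a l + t) (by omega)] at s1 s2
    refine ⟨fun hg => s1 (geo_gs h1 hD hg), fun k hk => ?_⟩
    obtain ⟨m, hm⟩ := geo_touch h1 hD r k
    exact s2 m ⟨hm _ (Or.inl hk.1), hm _ (Or.inr hk.2)⟩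

end Pool.TMS
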