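import Pool.Agent.TWC.StD

/-!
# TMS: statements, part E (the coefficients)
-/

set_option autoImplicit false

namespace Pool.TMS

open LaurentPolynomial Pool.Agent.ARB Pool.Agent.Helper2 Pool.ALT Pool.TWC

/-- the degree of the closed full twists in direction `τ` -/
def dph (τ k : ℤ) (w : ℕ) : ℤ := if w % 2 = 0 then 0 else 2 + 3 * (τ * k)

/-- [COM] the two extreme coefficients, several arcs (compare [COE] of `TWC/StA.lean`). `V S`: the value of the state `S`,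
`q`: powers of `loopVal` which are not cancelled, `K`: the nonempty states inside of a class.
PROOF. `V ∅ = loopVal ^ n₀ * ∏ Ph (k i) (m₀ i)` is `Tp τ (2 n₀ + ∑ dph) a₀ b₀`, `a₀ = (-1)^n₀ ∏ α_i`, `a₀ b₀ = n₀ + ∑ α_i β_i ≤ n₀ + ∑ [m₀ i ≠ 0]`
([PHT], `tp_prod`, `tp_pow`). For `S ∈ K`: degree `2 n₀ + ∑ dph + 2 |S| - 4`, coefficient there `(-1)^(n₀ + |S|) ∏ α_i`. The others: degree at
most `2 n₀ + ∑ dph + 2 |S| - 8`. So the sum is `Tp τ (N + 2 n₀ + ∑ dph) a b`, `a = a₀`, `b = b₀ + a₀ ∑_(S ∈ K) (-1)^|S|`, `a b ≤ 0`; but for a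
unit it is `Tp τ d s s`, `s s = 1`. -/
def St_COM : Prop := ∀ (N g n₀ : ℕ) (w m₀ : Fin g → ℕ) (k : Fin g → ℤ) (τ : ℤ) (p : LP)
  (V : Finset (Fin N) → LP) (q : Finset (Fin N) → ℕ) (K : Finset (Finset (Fin N))),
  (τ = 1 ∨ τ = -1) → (∀ i, τ * k i < 0) → St_PHT →
  T (3 * ∑ i, k i * w i) * (loopVal * p) = ∑ S : Finset (Fin N),
    T (τ * ((N : ℤ) - 2 * S.card)) * V S →
  (∀ i, m₀ i ≤ 2 ∧ m₀ i % 2 = w i % 2) →
  loopVal ^ q ∅ * V ∅ = loopVal ^ (n₀ + q ∅) * ∏ i, Ph (k i) (m₀ i) →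
  ∅ ∉ K →
  (∀ S ∈ K, ∃ (l : ℕ) (m : Fin g → ℕ), l + 2 = n₀ + S.card + q S ∧
    (∀ i, m i = m₀ i ∨ (m₀ i = 2 ∧ m i = 0)) ∧
    loopVal ^ q S * V S = loopVal ^ l * ∏ i, Ph (k i) (m i)) →
  (∀ S, S ≠ ∅ → S ∉ K → Le τ (2 * n₀ + (∑ i, dph τ (k i) (w i)) + 2 * S.card - 8) (V S)) →
  ∑ S ∈ K, (-1 : ℤ) ^ S.card ≤ -(n₀ : ℤ) - ∑ i, (if m₀ i = 0 then 0 else 1) →
  ¬ IsUnit p

end Pool.TMS
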