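import Pool.Agent.TMS.Defs
import Pool.Agent.TWC.Loc

/-!
# TMS: the main statement
-/

set_option autoImplicit false

namespace Pool.TMS

open LaurentPolynomial Pool.Agent.ARB Pool.Agent.Helper2 Pool.TWC

/-- the hypotheses on the diagram `u ++ v` and on the arcs: arc `i` goes from the gap `a i` to the gap `a i + w i` between
`u` and `v`; `ρ` is the colour of the regions for which the arcs have to be separated. -/
structure Arcs (ρ : Bool) (u v : Word) (n : ℕ) {g : ℕ} (a w : Fin (g + 1) → ℕ) : Prop where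
  oku : Pool.Agent.ARB.Ok u 0 n
  okv : Pool.Agent.ARB.Ok v n 0
  red : Reduced (u ++ v)
  zero : a 0 = 0
  lt : ∀ i j, i < j → a i + w i ≤ a j
  le : ∀ i, a i + w i ≤ n
  far : ∀ i, ∀ j ≤ 2, ¬ Arc (u ++ v) j (u.length, a i) (u.length, a i + w i)
  sep : ∀ i j, i ≠ j → ∀ x y, a i ≤ x → x ≤ a i + w i → a j ≤ y → y ≤ a j + w j →
    decide (x % 2 = 0) = ρ → decide (y % 2 = 0) = ρ → Sep (u ++ v) (u.length, x) (u.length, y)

/-- the theorem for the bracket; `r` is the colour of the regions (`true`: even gaps) for which the regions met by different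
arcs have to be separated: `r = e` if the `k i` are negative, `r = !e` if they are positive -/
def St_TM : Prop := ∀ (u v : Word) (n g : ℕ) (a w : Fin (g + 1) → ℕ) (k : Fin (g + 1) → ℤ)
  (K : List Slice) (e r : Bool) (τ : ℤ),
  Arcs r u v n a w → (∀ (p : Bool) (i : ℕ), pX i p ∈ u ++ v → (p = e ↔ i % 2 = 0)) →
  τ = (if r = e then 1 else -1) → (∀ i, τ * k i < 0) →
  IsDiagram K → forget K = u ++ tw a w k ++ v → ¬ IsUnit (bracket K)

end Pool.TMS
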